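import Pool.Agent.Q266.HLC.Stm
import Pool.Agent.W651.HI.Asm

/-!
From the separation theorem to the dimension statement, through the starting library behind the
starting theorem S12751.
-/

set_option autoImplicit false

namespace Pool.Agent.Q266.HLC

open Set Topology

/-- the starting theorem S12751, from the library modules behind it -/
theorem core :
  ∀ (X : Type) [MetricSpace X] [TopologicalSpace.SeparableSpace X] (C : Set X),
    C.Countable →
    (∃ B : Set (Set ↥(Cᶜ : Set X)), (∀ U ∈ B, IsClosed U) ∧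
      (∀ p : ↥(Cᶜ : Set X), ∀ V ∈ nhds p, ∃ U ∈ B, U ⊆ V ∧ p ∈ interior U) ∧
      (∀ U ∈ B, ∀ W ∈ B, Disjoint U W →
        ∃ F : Set ↥(Cᶜ : Set X), IsClopen F ∧ U ⊆ F ∧ Disjoint F W)) →
    ∀ x : X, ∀ V : Set X, IsOpen V → x ∈ V →
      ∃ U : Set X, IsOpen U ∧ x ∈ U ∧ U ⊆ V ∧
        ∀ y : ↥(frontier U), ∀ O : Set ↥(frontier U), IsOpen O → y ∈ O →
          ∃ W : Set ↥(frontier U), IsClopen W ∧ y ∈ W ∧ W ⊆ O := by
  intro X _ _ C hC hB x V hV hxV
  exact Pool.Agent.W651.HI.final
    (Pool.Agent.W651.HI.main Pool.Agent.W374.HI.Size.main Pool.Agent.W374.HI.Lim.main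
      Pool.Agent.W160.HI.Bump.main)
    (Pool.Agent.W240.HI.main Pool.Agent.W160.HI.Crook.main) Pool.Agent.W837.HIEmb.main
    X C hC hB x V hV hxV

theorem not_countable_Ioo {a b : ℝ} (h : a < b) : ¬ (Ioo a b).Countable := by
  intro hc
  have h1 := hc.le_aleph0
  rw [Cardinal.mk_Ioo_real h] at h1
  exact absurd h1 (not_le.2 Cardinal.aleph0_lt_continuum)

/-- nonempty open sets of a nontrivial connected metric space are uncountable -/
theorem open_uncountable {X : Type} [MetricSpace X] [ConnectedSpace X] [Nontrivial X] {A : Set X}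
    (hA : IsOpen A) (hn : A.Nonempty) : ¬ A.Countable := by
  intro hc
  obtain ⟨a, ha⟩ := hn
  obtain ⟨r, hr, hball⟩ := Metric.isOpen_iff.1 hA a ha
  obtain ⟨b, hb⟩ := exists_ne a
  have hd : 0 < dist b a := dist_pos.2 hb
  have himg : Ioo 0 (min r (dist b a)) ⊆ (fun z => dist z a) '' A := by
    intro t ht
    have hcont : Continuous fun z : X => dist z a := by fun_prop
    have ht1 : t < r := lt_of_lt_of_le ht.2 (min_le_left _ _)
    have ht2 : t < dist b a := lt_of_lt_of_le ht.2 (min_le_right _ _)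
    obtain ⟨z, hz⟩ := mem_range_of_exists_le_of_exists_ge hcont
      (c := t) ⟨a, by simpa using ht.1.le⟩ ⟨b, ht2.le⟩
    refine ⟨z, hball ?_, hz⟩
    rw [Metric.mem_ball]
    have : dist z a = t := hz
    rw [this]
    exact ht1
  exact not_countable_Ioo (lt_min hr hd) ((hc.image _).mono himg)

/-- the component of the centre in an open ball -/
def KB {X : Type} [MetricSpace X] (c : X) (r : ℝ) : Set X := connectedComponentIn (Metric.ball c r) c

theorem KB_open {X : Type} [MetricSpace X] [LocallyConnectedSpace X] (c : X) (r : ℝ) :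
    IsOpen (KB c r) := Metric.isOpen_ball.connectedComponentIn

theorem KB_pre {X : Type} [MetricSpace X] (c : X) (r : ℝ) : IsPreconnected (KB c r) :=
  isPreconnected_connectedComponentIn

theorem KB_mem {X : Type} [MetricSpace X] (c : X) {r : ℝ} (hr : 0 < r) : c ∈ KB c r :=
  mem_connectedComponentIn (Metric.mem_ball_self hr)

theorem KB_sub {X : Type} [MetricSpace X] (c : X) (r : ℝ) : KB c r ⊆ Metric.ball c r :=
  connectedComponentIn_subset _ _

theorem KB_closure_sub {X : Type} [MetricSpace X] (c : X) (r : ℝ) :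
    closure (KB c r) ⊆ Metric.closedBall c r :=
  (closure_mono (KB_sub c r)).trans Metric.closure_ball_subset_closedBall

theorem KB_closure {X : Type} [MetricSpace X] (c : X) {r r' : ℝ} (hr : 0 < r) (h : r < r') :
    closure (KB c r) ⊆ KB c r' := by
  refine (KB_pre c r).closure.subset_connectedComponentIn (subset_closure (KB_mem c hr)) ?_
  exact (KB_closure_sub c r).trans (Metric.closedBall_subset_ball h)

theorem assembly : S_assembly := by
  classical
  intro X _ _ _ _ hCS x V hV hxV
  rcases subsingleton_or_nontrivial X with hsub | hnt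
  · refine ⟨V, hV, hxV, Subset.rfl, fun y O hO hy => ⟨univ, isClopen_univ, mem_univ _, ?_⟩⟩
    intro z _
    rwa [Subsingleton.elim z y]
  have : Nonempty X := ⟨x⟩
  set e : ℕ → X := TopologicalSpace.denseSeq X with he
  have hdense : DenseRange e := TopologicalSpace.denseRange_denseSeq X
  set W : ℝ → ℕ × ℕ → Set X := fun t i => KB (e i.1) (t * (1 / 2) ^ i.2) with hW
  have hpow : ∀ m : ℕ, (0 : ℝ) < (1 / 2) ^ m := fun m => by positivity
  -- bad parameters
  set Bad : ℕ × ℕ → ℕ × ℕ → Set ℝ := fun i j => {t | t ∈ Ioo (1 / 2 : ℝ) 1 ∧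
    (closure (W t i) ∩ closure (W t j)).Nonempty ∧ W t i ∩ W t j = ∅} with hBad
  have hBs : ∀ i j, (Bad i j).Subsingleton := by
    intro i j
    have key : ∀ s t, s ∈ Bad i j → t ∈ Bad i j → s < t → False := by
      intro s t hs ht hst
      obtain ⟨hs0, ⟨z, hz1, hz2⟩, -⟩ := hs
      have hs1 : 0 < s := lt_trans (by norm_num) hs0.1
      have h1 := KB_closure (e i.1) (mul_pos hs1 (hpow i.2))
        (mul_lt_mul_of_pos_right hst (hpow i.2)) hz1
      have h2 := KB_closure (e j.1) (mul_pos hs1 (hpow j.2))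
        (mul_lt_mul_of_pos_right hst (hpow j.2)) hz2
      have h3 : z ∈ W t i ∩ W t j := ⟨h1, h2⟩
      rw [ht.2.2] at h3
      exact h3
    intro s hs t ht
    rcases lt_trichotomy s t with h | h | h
    · exact (key s t hs ht h).elim
    · exact h
    · exact (key t s ht hs h).elim
  have hBc : (⋃ i, ⋃ j, Bad i j).Countable :=
    countable_iUnion fun i => countable_iUnion fun j => (hBs i j).countable
  obtain ⟨t, ht, htB⟩ : ∃ t ∈ Ioo (1 / 2 : ℝ) 1, t ∉ ⋃ i, ⋃ j, Bad i j := by
    by_contra hcon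
    push Not at hcon
    exact not_countable_Ioo (by norm_num : (1 / 2 : ℝ) < 1) (hBc.mono hcon)
  have ht0 : 0 < t := lt_trans (by norm_num) ht.1
  have hgood : ∀ i j, W t i ∩ W t j = ∅ → Disjoint (closure (W t i)) (closure (W t j)) := by
    intro i j h
    rw [Set.disjoint_iff_inter_eq_empty]
    by_contra hne
    exact htB (mem_iUnion.2 ⟨i, mem_iUnion.2 ⟨j, ht, nonempty_iff_ne_empty.2 hne, h⟩⟩)
  have hWo : ∀ i, IsOpen (W t i) := fun i => KB_open _ _
  have hWn : ∀ i, (W t i).Nonempty := fun i => ⟨_, KB_mem _ (mul_pos ht0 (hpow i.2))⟩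
  have hsep : ∀ i j, Disjoint (closure (W t i)) (closure (W t j)) →
      ∃ P : Set X, IsOpen P ∧ W t i ⊆ P ∧ Disjoint (W t j) P ∧ (frontier P).Countable :=
    fun i j h => hCS _ _ (hWo i) (KB_pre _ _) (hWn i) (hWo j) (KB_pre _ _) (hWn j) h
  choose! P hP1 hP2 hP3 hP4 using hsep
  set C : Set X := ⋃ ij ∈ {ij : (ℕ × ℕ) × (ℕ × ℕ) |
    Disjoint (closure (W t ij.1)) (closure (W t ij.2))}, frontier (P ij.1 ij.2) with hC
  have hCc : C.Countable := by
    refine Set.Countable.biUnion (Set.to_countable _) fun ij hij => hP4 _ _ hij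
  refine core X C hCc ⟨range fun i => Subtype.val ⁻¹' closure (W t i), ?_, ?_, ?_⟩ x V hV hxV
  · rintro _ ⟨i, rfl⟩
    exact isClosed_closure.preimage continuous_subtype_val
  · intro p N hN
    obtain ⟨N', hN', hNN⟩ := (mem_nhds_subtype _ p N).1 hN
    obtain ⟨ε, hε, hball⟩ := Metric.mem_nhds_iff.1 hN'
    obtain ⟨m, hm⟩ := exists_pow_lt_of_lt_one (half_pos hε) (by norm_num : (1 / 2 : ℝ) < 1)
    set δ : ℝ := (1 / 2) ^ m with hδ
    have hδ0 : 0 < δ := hpow m
    obtain ⟨k, hk⟩ := hdense.exists_mem_open (KB_open (p : X) (δ / 4))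
      ⟨(p : X), KB_mem _ (by linarith)⟩
    have hpe : dist (e k) (p : X) < δ / 4 := KB_sub _ _ hk
    have hpW : (p : X) ∈ W t (k, m) := by
      have hsub : KB (p : X) (δ / 4) ⊆ KB (e k) (t * (1 / 2) ^ m) := by
        refine (KB_pre _ _).subset_connectedComponentIn hk ?_
        intro z hz
        have h1 : dist z (p : X) < δ / 4 := KB_sub _ _ hz
        rw [Metric.mem_ball]
        have h2 := dist_triangle_right z (e k) (p : X)
        have h3 : δ / 2 < t * δ := by nlinarith [ht.1]
        linarith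
      exact hsub (KB_mem _ (by linarith))
    refine ⟨_, ⟨(k, m), rfl⟩, ?_, ?_⟩
    · intro z hz
      apply hNN
      apply hball
      have h1 : dist (z : X) (e k) ≤ t * (1 / 2) ^ m := KB_closure_sub _ _ hz
      rw [Metric.mem_ball]
      have h2 := dist_triangle (z : X) (e k) (p : X)
      have h3 : t * δ < δ := by nlinarith [ht.2]
      linarith
    · refine mem_interior.2 ⟨Subtype.val ⁻¹' W t (k, m), preimage_mono subset_closure,
        (hWo _).preimage continuous_subtype_val, hpW⟩
  · rintro _ ⟨i, rfl⟩ _ ⟨j, rfl⟩ hij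
    have hinter : W t i ∩ W t j = ∅ := by
      by_contra hne
      refine open_uncountable ((hWo i).inter (hWo j)) (nonempty_iff_ne_empty.2 hne)
        (hCc.mono ?_)
      intro z hz
      by_contra hzC
      exact Set.disjoint_left.1 hij (show (⟨z, hzC⟩ : ↥(Cᶜ : Set X)) ∈ _ from
        subset_closure hz.1) (subset_closure hz.2)
    have hd := hgood i j hinter
    have hfC : frontier (P i j) ⊆ C := by
      intro z hz
      exact mem_biUnion (x := ((i, j) : (ℕ × ℕ) × (ℕ × ℕ))) hd hz
    have hPeq : (Subtype.val ⁻¹' P i j : Set ↥(Cᶜ : Set X)) = Subtype.val ⁻¹' closure (P i j) := by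
      apply Subset.antisymm (preimage_mono subset_closure)
      intro z hz
      by_contra hzP
      apply z.2
      apply hfC
      rw [(hP1 i j hd).frontier_eq]
      exact ⟨hz, hzP⟩
    refine ⟨Subtype.val ⁻¹' P i j, ⟨?_, (hP1 i j hd).preimage continuous_subtype_val⟩, ?_, ?_⟩
    · rw [hPeq]
      exact isClosed_closure.preimage continuous_subtype_val
    · rw [hPeq]
      exact preimage_mono (closure_mono (hP2 i j hd))
    · have hdis : Disjoint (P i j) (closure (W t j)) :=
        (hP3 i j hd).symm.closure_right (hP1 i j hd)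
      exact hdis.preimage _

end Pool.Agent.Q266.HLC
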