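import Pool.Agent.Q266.HLC.Stm

/-!
The 2-Menger theorem in locally connected metric spaces without local separating points.
-/

set_option autoImplicit false

namespace Pool.Agent.Q266.HLC

open Set Topology

section

variable {Y : Type} [MetricSpace Y]

/-- small connected neighbourhoods -/
theorem small [LocallyConnectedSpace Y] {A : Set Y} (hA : IsOpen A) {p : Y} (hp : p ∈ A) :
    ∃ N : Set Y, IsOpen N ∧ IsPreconnected N ∧ p ∈ N ∧ closure N ⊆ A := by
  obtain ⟨ε, hε, hball⟩ := Metric.isOpen_iff.1 hA p hp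
  refine ⟨connectedComponentIn (Metric.ball p (ε / 2)) p, Metric.isOpen_ball.connectedComponentIn,
    isPreconnected_connectedComponentIn, mem_connectedComponentIn (Metric.mem_ball_self (by linarith)),
    ?_⟩
  refine ((closure_mono (connectedComponentIn_subset _ _)).trans
    Metric.closure_ball_subset_closedBall).trans ?_
  exact (Metric.closedBall_subset_ball (by linarith)).trans hball

theorem other_point {O U : Set Y} {x b : Y} (hO : IsOpen O) (hOc : IsPreconnected O)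
    (hU : IsOpen U) (hOU : (O ∩ U).Nonempty) (hb : b ∈ O) (hbx : b ≠ x) :
    ∃ v ∈ O ∩ U, v ≠ x := by
  by_contra hcon
  push Not at hcon
  obtain ⟨a, ha⟩ := hOU
  have hax := hcon a ha
  obtain ⟨z, -, hz1, hz2⟩ := hOc (O ∩ U) {x}ᶜ (hO.inter hU) isOpen_compl_singleton (by
    intro y _
    by_cases h : y = x
    · left; rw [h, ← hax]; exact ha
    · right; exact h) ⟨a, ha.1, ha⟩ ⟨b, hb, hbx⟩
  exact hz2 (hcon z hz1)

theorem d1 [LocallyConnectedSpace Y] (hN : NLS Y) {O U : Set Y} {x b : Y} (hO : IsOpen O)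
    (hOc : IsPreconnected O) (hU : IsOpen U) (hOU : (O ∩ U).Nonempty) (hb : b ∈ O)
    (hbx : b ≠ x) :
    ∃ L : Set Y, IsOpen L ∧ IsPreconnected L ∧ b ∈ L ∧ L ⊆ O ∧ (L ∩ U).Nonempty ∧
      x ∉ closure L := by
  set V : Set Y := {v | ∃ L : Set Y, IsOpen L ∧ IsPreconnected L ∧ b ∈ L ∧ v ∈ L ∧ L ⊆ O ∧
    x ∉ closure L} with hV
  have hVo : IsOpen V := by
    rw [isOpen_iff_forall_mem_open]
    rintro v ⟨L, h1, h2, h3, h4, h5, h6⟩
    exact ⟨L, fun w hw => ⟨L, h1, h2, h3, hw, h5, h6⟩, h1, h4⟩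
  have hOx : IsOpen (O \ {x}) := hO.sdiff isClosed_singleton
  have hsub : O \ {x} ⊆ V := by
    refine (hN O hO hOc x).subset_of_closure_inter_subset hVo ?_ ?_
    · obtain ⟨N, h1, h2, h3, h4⟩ := small hOx (show b ∈ O \ {x} from ⟨hb, hbx⟩)
      exact ⟨b, ⟨hb, hbx⟩, N, h1, h2, h3, h3, fun a ha => (h4 (subset_closure ha)).1,
        fun h => (h4 h).2 rfl⟩
    · rintro v ⟨hv1, hv2⟩
      obtain ⟨N, h1, h2, h3, h4⟩ := small hOx hv2
      obtain ⟨w, hw1, L, g1, g2, g3, g4, g5, g6⟩ := mem_closure_iff.1 hv1 N h1 h3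
      refine ⟨L ∪ N, g1.union h1, g2.union w g4 hw1 h2, Or.inl g3, Or.inr h3,
        union_subset g5 fun a ha => (h4 (subset_closure ha)).1, ?_⟩
      rw [closure_union]
      rintro (h | h)
      · exact g6 h
      · exact (h4 h).2 rfl
  obtain ⟨v, hv, hvx⟩ := other_point hO hOc hU hOU hb hbx
  obtain ⟨L, h1, h2, h3, h4, h5, h6⟩ := hsub ⟨hv.1, hvx⟩
  exact ⟨L, h1, h2, h3, h5, ⟨v, h4, hv.2⟩, h6⟩

theorem d2 [LocallyConnectedSpace Y] {T W W' : Set Y} (hT : IsOpen T) (hTc : IsPreconnected T)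
    (hW' : IsOpen W') (hWW : closure W ⊆ W') (hTW : (T ∩ W).Nonempty)
    {u : Y} (hu : u ∈ T) (huW : u ∉ W') :
    ∃ C F : Set Y, IsOpen C ∧ IsPreconnected C ∧ C ⊆ T ∧ C ⊆ W' ∧ (C ∩ W).Nonempty ∧ IsOpen F ∧
      IsPreconnected F ∧ closure F ⊆ T ∧ Disjoint F W ∧ (C ∩ F).Nonempty ∧ u ∈ F := by
  set A : Set Y := {t | (∃ C : Set Y, IsOpen C ∧ IsPreconnected C ∧ C ⊆ T ∧ C ⊆ W' ∧
    (C ∩ W).Nonempty ∧ t ∈ C) ∨ (∃ C F : Set Y, IsOpen C ∧ IsPreconnected C ∧ C ⊆ T ∧ C ⊆ W' ∧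
    (C ∩ W).Nonempty ∧ IsOpen F ∧ IsPreconnected F ∧ closure F ⊆ T ∧ Disjoint F W ∧
    (C ∩ F).Nonempty ∧ t ∈ F)} with hA
  have hAo : IsOpen A := by
    rw [isOpen_iff_forall_mem_open]
    rintro t (⟨C, h1, h2, h3, h4, h5, h6⟩ | ⟨C, F, h1, h2, h3, h4, h5, h6, h7, h8, h9, h10, h11⟩)
    · exact ⟨C, fun w hw => Or.inl ⟨C, h1, h2, h3, h4, h5, hw⟩, h1, h6⟩
    · exact ⟨F, fun w hw => Or.inr ⟨C, F, h1, h2, h3, h4, h5, h6, h7, h8, h9, h10, hw⟩, h6, h11⟩
  have hTW' : IsOpen (T ∩ W') := hT.inter hW'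
  have near : ∀ t ∈ T, t ∈ closure W → t ∈ A := by
    intro t ht htW
    have htm : t ∈ connectedComponentIn (T ∩ W') t := mem_connectedComponentIn ⟨ht, hWW htW⟩
    refine Or.inl ⟨connectedComponentIn (T ∩ W') t, hTW'.connectedComponentIn,
      isPreconnected_connectedComponentIn, (connectedComponentIn_subset _ _).trans inter_subset_left,
      (connectedComponentIn_subset _ _).trans inter_subset_right, ?_, htm⟩
    exact mem_closure_iff.1 htW _ hTW'.connectedComponentIn htm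
  have hsub : T ⊆ A := by
    refine hTc.subset_of_closure_inter_subset hAo ?_ ?_
    · obtain ⟨t, ht1, ht2⟩ := hTW
      exact ⟨t, ht1, near t ht1 (subset_closure ht2)⟩
    · rintro t ⟨htA, htT⟩
      by_cases htW : t ∈ closure W
      · exact near t htT htW
      · obtain ⟨N, n1, n2, n3, n4⟩ := small (hT.inter isClosed_closure.isOpen_compl)
          (show t ∈ T ∩ (closure W)ᶜ from ⟨htT, htW⟩)
        have hNW : Disjoint N W := by
          rw [Set.disjoint_left]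
          intro a ha1 ha2
          exact (n4 (subset_closure ha1)).2 (subset_closure ha2)
        have hNT : closure N ⊆ T := fun a ha => (n4 ha).1
        obtain ⟨s, hsN, hsA⟩ := mem_closure_iff.1 htA N n1 n3
        rcases hsA with ⟨C, h1, h2, h3, h4, h5, h6⟩ |
          ⟨C, F, h1, h2, h3, h4, h5, h6, h7, h8, h9, h10, h11⟩
        · exact Or.inr ⟨C, N, h1, h2, h3, h4, h5, n1, n2, hNT, hNW, ⟨s, h6, hsN⟩, n3⟩
        · refine Or.inr ⟨C, F ∪ N, h1, h2, h3, h4, h5, h6.union n1, h7.union s h11 hsN n2, ?_, ?_,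
            h10.mono (inter_subset_inter_right _ subset_union_left), Or.inr n3⟩
          · rw [closure_union]
            exact union_subset h8 hNT
          · exact h9.union_left hNW
  rcases hsub hu with ⟨C, h1, h2, h3, h4, h5, h6⟩ | h
  · exact absurd (h4 h6) huW
  · exact h

theorem d3 [LocallyConnectedSpace Y] {L F1 F2 : Set Y} {b : Y} (hL : IsOpen L)
    (hLc : IsPreconnected L) (hb : b ∈ L) (hd : Disjoint (closure F1) (closure F2))
    (hm : (L ∩ (F1 ∪ F2)).Nonempty) :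
    ∃ J : Set Y, IsOpen J ∧ IsPreconnected J ∧ J ⊆ L ∧ b ∈ J ∧
      (((J ∩ F1).Nonempty ∧ Disjoint J F2) ∨ ((J ∩ F2).Nonempty ∧ Disjoint J F1)) := by
  by_contra hcon
  push Not at hcon
  have hfree : ∀ J : Set Y, IsOpen J → IsPreconnected J → J ⊆ L → b ∈ J →
      (Disjoint J F1 ∨ Disjoint J F2) → Disjoint J F1 ∧ Disjoint J F2 := by
    intro J h1 h2 h3 h4 h5
    obtain ⟨g1, g2⟩ := hcon J h1 h2 h3 h4
    rcases h5 with h5 | h5
    · refine ⟨h5, ?_⟩
      rw [Set.disjoint_iff_inter_eq_empty]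
      by_contra hne
      exact g2 (nonempty_iff_ne_empty.2 hne) h5
    · refine ⟨?_, h5⟩
      rw [Set.disjoint_iff_inter_eq_empty]
      by_contra hne
      exact g1 (nonempty_iff_ne_empty.2 hne) h5
  have hsm : ∀ t ∈ L, ∃ N : Set Y, IsOpen N ∧ IsPreconnected N ∧ t ∈ N ∧ N ⊆ L ∧
      (Disjoint N F1 ∨ Disjoint N F2) := by
    intro t ht
    by_cases h : t ∈ closure F1
    · have h' : t ∉ closure F2 := fun h' => Set.disjoint_left.1 hd h h'
      obtain ⟨N, n1, n2, n3, n4⟩ := small (hL.inter isClosed_closure.isOpen_compl)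
        (show t ∈ L ∩ (closure F2)ᶜ from ⟨ht, h'⟩)
      refine ⟨N, n1, n2, n3, fun a ha => (n4 (subset_closure ha)).1, Or.inr ?_⟩
      rw [Set.disjoint_left]
      exact fun a ha1 ha2 => (n4 (subset_closure ha1)).2 (subset_closure ha2)
    · obtain ⟨N, n1, n2, n3, n4⟩ := small (hL.inter isClosed_closure.isOpen_compl)
        (show t ∈ L ∩ (closure F1)ᶜ from ⟨ht, h⟩)
      refine ⟨N, n1, n2, n3, fun a ha => (n4 (subset_closure ha)).1, Or.inl ?_⟩
      rw [Set.disjoint_left]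
      exact fun a ha1 ha2 => (n4 (subset_closure ha1)).2 (subset_closure ha2)
  set A : Set Y := {t | ∃ J : Set Y, IsOpen J ∧ IsPreconnected J ∧ J ⊆ L ∧ b ∈ J ∧ t ∈ J ∧
    Disjoint J F1 ∧ Disjoint J F2} with hA
  have hAo : IsOpen A := by
    rw [isOpen_iff_forall_mem_open]
    rintro t ⟨J, h1, h2, h3, h4, h5, h6⟩
    exact ⟨J, fun w hw => ⟨J, h1, h2, h3, h4, hw, h6⟩, h1, h5⟩
  have hsub : L ⊆ A := by
    refine hLc.subset_of_closure_inter_subset hAo ?_ ?_
    · obtain ⟨N, n1, n2, n3, n4, n5⟩ := hsm b hb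
      exact ⟨b, hb, N, n1, n2, n4, n3, n3, hfree N n1 n2 n4 n3 n5⟩
    · rintro t ⟨htA, htL⟩
      obtain ⟨N, n1, n2, n3, n4, n5⟩ := hsm t htL
      obtain ⟨s, hsN, J, h1, h2, h3, h4, h5, h6, h7⟩ := mem_closure_iff.1 htA N n1 n3
      have g1 : IsOpen (J ∪ N) := h1.union n1
      have g2 : IsPreconnected (J ∪ N) := h2.union s h5 hsN n2
      have g3 : J ∪ N ⊆ L := union_subset h3 n4
      refine ⟨J ∪ N, g1, g2, g3, Or.inl h4, Or.inr n3, hfree _ g1 g2 g3 (Or.inl h4) ?_⟩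
      rcases n5 with h | h
      · exact Or.inl (h6.union_left h)
      · exact Or.inr (h7.union_left h)
  obtain ⟨t, ht1, ht2⟩ := hm
  obtain ⟨J, h1, h2, h3, h4, h5, h6, h7⟩ := hsub ht1
  rcases ht2 with h | h
  · exact Set.disjoint_left.1 h6 h5 h
  · exact Set.disjoint_left.1 h7 h5 h

end

theorem menger : S_menger := by
  intro Y _ _ hN O U q b hO hOc hU hOU hq hb hqb
  set G : Set Y := {x | ∃ Tx Tb : Set Y, IsOpen Tx ∧ IsPreconnected Tx ∧ IsOpen Tb ∧
    IsPreconnected Tb ∧ Tx ⊆ O ∧ Tb ⊆ O ∧ Disjoint Tx Tb ∧ x ∈ Tx ∧ b ∈ Tb ∧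
    (Tx ∩ U).Nonempty ∧ (Tb ∩ U).Nonempty} with hG
  suffices h : O \ {b} ⊆ G by exact h ⟨hq, hqb⟩
  have hGo : IsOpen G := by
    rw [isOpen_iff_forall_mem_open]
    rintro x ⟨Tx, Tb, h1, h2, h3, h4, h5, h6, h7, h8, h9⟩
    exact ⟨Tx, fun w hw => ⟨Tx, Tb, h1, h2, h3, h4, h5, h6, h7, hw, h9⟩, h1, h8⟩
  refine (hN O hO hOc b).subset_of_closure_inter_subset hGo ?_ ?_
  · obtain ⟨x, hx, hxb⟩ := other_point hO hOc hU hOU hq hqb
    obtain ⟨L, l1, l2, l3, l4, l5, l6⟩ := d1 hN hO hOc hU hOU hb (Ne.symm hxb)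
    have hop : IsOpen ((O ∩ U) ∩ (closure L)ᶜ) :=
      (hO.inter hU).inter isClosed_closure.isOpen_compl
    obtain ⟨N, n1, n2, n3, n4⟩ := small hop (show x ∈ (O ∩ U) ∩ (closure L)ᶜ from ⟨hx, l6⟩)
    refine ⟨x, ⟨hx.1, hxb⟩, N, L, n1, n2, l1, l2, fun a ha => (n4 (subset_closure ha)).1.1, l4,
      ?_, n3, l3, ⟨x, n3, hx.2⟩, l5⟩
    rw [Set.disjoint_left]
    exact fun a ha1 ha2 => (n4 (subset_closure ha1)).2 (subset_closure ha2)
  · rintro z ⟨hzG, hzO, hzb⟩
    obtain ⟨L, l1, l2, l3, l4, l5, l6⟩ := d1 hN hO hOc hU hOU hb (Ne.symm hzb)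
    by_cases hzU : z ∈ closure U
    · obtain ⟨N, n1, n2, n3, n4⟩ := small (hO.inter isClosed_closure.isOpen_compl)
        (show z ∈ O ∩ (closure L)ᶜ from ⟨hzO, l6⟩)
      refine ⟨N, L, n1, n2, l1, l2, fun a ha => (n4 (subset_closure ha)).1, l4,
        ?_, n3, l3, mem_closure_iff.1 hzU N n1 n3, l5⟩
      rw [Set.disjoint_left]
      exact fun a ha1 ha2 => (n4 (subset_closure ha1)).2 (subset_closure ha2)
    · have hW'o : IsOpen (O ∩ ((closure L)ᶜ ∩ (closure U)ᶜ)) :=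
        hO.inter (isClosed_closure.isOpen_compl.inter isClosed_closure.isOpen_compl)
      set W' : Set Y := O ∩ ((closure L)ᶜ ∩ (closure U)ᶜ) with hW'
      obtain ⟨W, w1, w2, w3, w4⟩ := small hW'o (show z ∈ W' from ⟨hzO, l6, hzU⟩)
      have hWO : W ⊆ O := fun a ha => (w4 (subset_closure ha)).1
      have hW'L : ∀ a ∈ W', a ∉ L := fun a ha h => ha.2.1 (subset_closure h)
      have hW'U : ∀ a ∈ W', a ∉ U := fun a ha h => ha.2.2 (subset_closure h)
      have hWW' : W ⊆ W' := fun a ha => w4 (subset_closure ha)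
      obtain ⟨x, hxW, Tx, Tb, h1, h2, h3, h4, h5, h6, h7, h8, h9, h10, h11⟩ :=
        mem_closure_iff.1 hzG W w1 w3
      by_cases hTbW : (Tb ∩ W).Nonempty
      swap
      · refine ⟨Tx ∪ W, Tb, h1.union w1, h2.union x h8 hxW w2, h3, h4, union_subset h5 hWO, h6,
          ?_, Or.inr w3, h9, h10.mono (inter_subset_inter_left _ subset_union_left), h11⟩
        refine Disjoint.union_left h7 ?_
        rw [Set.disjoint_iff_inter_eq_empty, inter_comm]
        exact not_nonempty_iff_eq_empty.1 hTbW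
      · obtain ⟨ub, hub1, hub2⟩ := h11
        obtain ⟨ux, hux1, hux2⟩ := h10
        obtain ⟨Cb, Fb, b1, b2, b3, b4, b5, b6, b7, b8, b9, b10, b11⟩ :=
          d2 h3 h4 hW'o w4 hTbW hub1 (fun h => hW'U _ h hub2)
        obtain ⟨Cx, Fx, x1, x2, x3, x4, x5, x6, x7, x8, x9, x10, x11⟩ :=
          d2 h1 h2 hW'o w4 ⟨x, h8, hxW⟩ hux1 (fun h => hW'U _ h hux2)
        have hFd : Disjoint (closure Fx) (closure Fb) := h7.mono x8 b8
        have hFxT : Fx ⊆ Tx := subset_closure.trans x8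
        have hFbT : Fb ⊆ Tb := subset_closure.trans b8
        have pre : ∀ C F : Set Y, IsPreconnected C → IsPreconnected F → (C ∩ W).Nonempty →
            (C ∩ F).Nonempty → IsPreconnected (W ∪ C ∪ F) := by
          intro C F hC hF hCW hCF
          obtain ⟨a, ha1, ha2⟩ := hCW
          obtain ⟨c, hc1, hc2⟩ := hCF
          exact (w2.union a ha2 ha1 hC).union c (Or.inr hc1) hc2 hF
        by_cases hLF : (L ∩ (Fx ∪ Fb)).Nonempty
        · obtain ⟨J, j1, j2, j3, j4, j5⟩ := d3 l1 l2 l3 hFd hLF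
          have hJW' : ∀ a ∈ J, a ∉ W' := fun a ha h => hW'L a h (j3 ha)
          rcases j5 with ⟨⟨c, hc1, hc2⟩, j6⟩ | ⟨⟨c, hc1, hc2⟩, j6⟩
          · -- `J` meets `Fx` and misses `Fb`
            refine ⟨W ∪ Cb ∪ Fb, J ∪ Fx, (w1.union b1).union b6, pre Cb Fb b2 b7 b5 b10,
              j1.union x6, j2.union c hc1 hc2 x7,
              union_subset (union_subset hWO (b3.trans h6)) (hFbT.trans h6),
              union_subset (j3.trans l4) (hFxT.trans h5), ?_, Or.inl (Or.inl w3), Or.inl j4,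
              ⟨ub, Or.inr b11, hub2⟩, ⟨ux, Or.inr x11, hux2⟩⟩
            rw [Set.disjoint_left]
            rintro a ((ha | ha) | ha) (ha' | ha')
            · exact hJW' a ha' (hWW' ha)
            · exact Set.disjoint_left.1 x9 ha' ha
            · exact hJW' a ha' (b4 ha)
            · exact Set.disjoint_left.1 h7 (hFxT ha') (b3 ha)
            · exact Set.disjoint_left.1 j6 ha' ha
            · exact Set.disjoint_left.1 h7 (hFxT ha') (hFbT ha)
          · -- `J` meets `Fb` and misses `Fx`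
            refine ⟨W ∪ Cx ∪ Fx, J ∪ Fb, (w1.union x1).union x6, pre Cx Fx x2 x7 x5 x10,
              j1.union b6, j2.union c hc1 hc2 b7,
              union_subset (union_subset hWO (x3.trans h5)) (hFxT.trans h5),
              union_subset (j3.trans l4) (hFbT.trans h6), ?_, Or.inl (Or.inl w3), Or.inl j4,
              ⟨ux, Or.inr x11, hux2⟩, ⟨ub, Or.inr b11, hub2⟩⟩
            rw [Set.disjoint_left]
            rintro a ((ha | ha) | ha) (ha' | ha')
            · exact hJW' a ha' (hWW' ha)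
            · exact Set.disjoint_left.1 b9 ha' ha
            · exact hJW' a ha' (x4 ha)
            · exact Set.disjoint_left.1 h7 (x3 ha) (hFbT ha')
            · exact Set.disjoint_left.1 j6 ha' ha
            · exact Set.disjoint_left.1 h7 (hFxT ha) (hFbT ha')
        · refine ⟨W ∪ Cx ∪ Fx, L, (w1.union x1).union x6, pre Cx Fx x2 x7 x5 x10, l1, l2,
            union_subset (union_subset hWO (x3.trans h5)) (hFxT.trans h5), l4, ?_,
            Or.inl (Or.inl w3), l3, ⟨ux, Or.inr x11, hux2⟩, l5⟩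
          rw [Set.disjoint_left]
          rintro a ((ha | ha) | ha) ha'
          · exact hW'L a (hWW' ha) ha'
          · exact hW'L a (x4 ha) ha'
          · exact hLF ⟨a, ha', Or.inl ha⟩

end Pool.Agent.Q266.HLC
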