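import Pool.Agent.Q266.HLC.Stm

/-!
Quasi-components of subsets of hereditarily locally connected spaces are connected.
-/

set_option autoImplicit false

namespace Pool.Agent.Q266.HLC

open Set Topology

variable {X : Type} [MetricSpace X]

/-- the quasi-component of `y` in `Z` -/
def QC (Z : Set X) (y : X) : Set X :=
  {x | x ∈ Z ∧ ∀ P : Set X, IsOpen P → Disjoint (frontier P) Z → x ∈ P → y ∈ P}

theorem frontier_cc [LocallyConnectedSpace X] {A : Set X} (hA : IsOpen A) (x : X) :
    frontier (connectedComponentIn A x) ⊆ frontier A := by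
  intro z hz
  have hopen : IsOpen (connectedComponentIn A x) := hA.connectedComponentIn
  rw [hopen.frontier_eq] at hz
  rw [hA.frontier_eq]
  refine ⟨closure_mono (connectedComponentIn_subset A x) hz.1, fun hzA => hz.2 ?_⟩
  have hop : IsOpen (connectedComponentIn A z) := hA.connectedComponentIn
  obtain ⟨w, hw1, hw2⟩ := mem_closure_iff.1 hz.1 _ hop (mem_connectedComponentIn hzA)
  have e1 := connectedComponentIn_eq hw1
  have e2 := connectedComponentIn_eq hw2
  rw [e2, ← e1]
  exact mem_connectedComponentIn hzA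

/-- a preconnected set that meets the open set `P` and misses its frontier lies in `P` -/
theorem side {S P : Set X} (hS : IsPreconnected S) (hP : IsOpen P) (hf : Disjoint (frontier P) S)
    (hm : (S ∩ P).Nonempty) : S ⊆ P := by
  refine hS.subset_of_closure_inter_subset hP hm ?_
  rintro z ⟨hz1, hz2⟩
  by_contra h
  refine Set.disjoint_left.1 hf ?_ hz2
  rw [hP.frontier_eq]
  exact ⟨hz1, h⟩

theorem qc_aux [LocallyConnectedSpace X] [SecondCountableTopology X] (hX : HL X) {Z : Set X}
    {y : X} {u v : Set X} (hu : IsOpen u) (hv : IsOpen v) (hcov : QC Z y ⊆ u ∪ v)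
    (hdis : QC Z y ∩ (u ∩ v) = ∅) (hy : y ∈ QC Z y) (hyv : y ∈ v) : QC Z y ⊆ v := by
  intro x hxQ
  by_contra hxv
  have hxu : x ∈ u := (hcov hxQ).resolve_right hxv
  -- separated pieces
  have hd1 : Disjoint (closure (QC Z y ∩ u)) (QC Z y ∩ v) := by
    refine Disjoint.mono_right inter_subset_right (Disjoint.closure_left ?_ hv)
    rw [Set.disjoint_left]
    rintro a ⟨ha1, ha2⟩ ha3
    have : a ∈ QC Z y ∩ (u ∩ v) := ⟨ha1, ha2, ha3⟩
    rw [hdis] at this
    exact this
  have hd2 : Disjoint (QC Z y ∩ u) (closure (QC Z y ∩ v)) := by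
    refine Disjoint.mono_left inter_subset_right (Disjoint.closure_right ?_ hu)
    rw [Set.disjoint_left]
    rintro a ha2 ⟨ha1, ha3⟩
    have : a ∈ QC Z y ∩ (u ∩ v) := ⟨ha1, ha2, ha3⟩
    rw [hdis] at this
    exact this
  obtain ⟨O1, O2, hO1, hO2, hM1, hM2, hO⟩ :=
    separatedNhds_iff_disjoint.2 (CompletelyNormalSpace.completely_normal hd1 hd2)
  have hxO : x ∈ O1 := hM1 ⟨hxQ, hxu⟩
  have hyO : y ∈ O2 := hM2 ⟨hy, hyv⟩
  set H := connectedComponentIn O1 x with hH
  have hHo : IsOpen H := hO1.connectedComponentIn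
  have hHc : IsPreconnected H := isPreconnected_connectedComponentIn
  have hxH : x ∈ H := mem_connectedComponentIn hxO
  have hHO : H ⊆ O1 := connectedComponentIn_subset _ _
  have hHQ : Disjoint (frontier H) (QC Z y) := by
    rw [Set.disjoint_left]
    intro z hz hzQ
    have hz1 : z ∈ frontier O1 := frontier_cc hO1 x hz
    rw [hO1.frontier_eq] at hz1
    rcases hcov hzQ with h | h
    · exact hz1.2 (hM1 ⟨hzQ, h⟩)
    · exact Set.disjoint_left.1 (hO.closure_left hO2) hz1.1 (hM2 ⟨hzQ, h⟩)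
  -- the countable cover of the frontier
  set S : Set (Set X) := {P | IsOpen P ∧ Disjoint (frontier P) Z ∧ y ∉ P} with hS
  obtain ⟨C, hCc, hCS, hCU⟩ := TopologicalSpace.isOpen_sUnion_countable S (fun s hs => hs.1)
  obtain ⟨P, hP⟩ := (hCc.insert ∅).exists_eq_range (insert_nonempty _ _)
  have hPS : ∀ n, P n ∈ S := by
    intro n
    have h : P n ∈ insert ∅ C := by rw [hP]; exact mem_range_self n
    rcases h with h | h
    · rw [h]
      refine ⟨isOpen_empty, ?_, fun h => h⟩
      rw [frontier_empty]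
      exact Set.empty_disjoint _
    · exact hCS h
  have hPcov : frontier H ∩ Z ⊆ ⋃ n, P n := by
    rintro z ⟨hz1, hz2⟩
    have hzQ : z ∉ QC Z y := fun h => Set.disjoint_left.1 hHQ hz1 h
    have : ∃ A : Set X, IsOpen A ∧ Disjoint (frontier A) Z ∧ z ∈ A ∧ y ∉ A := by
      by_contra hcon
      push Not at hcon
      exact hzQ ⟨hz2, fun A h1 h2 h3 => hcon A h1 h2 h3⟩
    obtain ⟨A, h1, h2, h3, h4⟩ := this
    have hzU : z ∈ ⋃₀ C := by
      rw [hCU]
      exact ⟨A, ⟨h1, h2, h4⟩, h3⟩
    obtain ⟨B, hB, hzB⟩ := hzU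
    have : B ∈ range P := by rw [← hP]; exact Or.inr hB
    obtain ⟨n, rfl⟩ := this
    exact mem_iUnion.2 ⟨n, hzB⟩
  -- disjoint pieces
  set P' : ℕ → Set X := fun n => P n ∩ ⋂ i ∈ {i | i < n}, (closure (P i))ᶜ with hP'
  have hP'o : ∀ n, IsOpen (P' n) := by
    intro n
    refine (hPS n).1.inter ?_
    exact (Set.finite_lt_nat n).isOpen_biInter fun i _ => isClosed_closure.isOpen_compl
  have hP'm : ∀ n w, w ∈ P' n ↔ w ∈ P n ∧ ∀ i < n, w ∉ closure (P i) := by
    intro n w
    simp [hP']
  have hcl : ∀ n w, w ∈ Z → w ∉ P n → w ∉ closure (P n) := by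
    intro n w hw h1 h2
    refine Set.disjoint_left.1 (hPS n).2.1 ?_ hw
    rw [(hPS n).1.frontier_eq]
    exact ⟨h2, h1⟩
  have hP'f : ∀ n, Disjoint (frontier (P' n)) Z := by
    intro n
    rw [Set.disjoint_left]
    intro w hw hwZ
    rw [(hP'o n).frontier_eq] at hw
    refine hw.2 ((hP'm n w).2 ⟨?_, ?_⟩)
    · by_contra h
      exact hcl n w hwZ h (closure_mono (fun a ha => ((hP'm n a).1 ha).1) hw.1)
    · intro i hi
      refine hcl i w hwZ fun h => ?_
      obtain ⟨a, ha1, ha2⟩ := mem_closure_iff.1 hw.1 _ (hPS i).1 h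
      exact ((hP'm n a).1 ha2).2 i hi (subset_closure ha1)
  have hP'd : ∀ m n w, w ∈ P' m → w ∈ P' n → m = n := by
    intro m n w h1 h2
    rcases lt_trichotomy m n with h | h | h
    · exact absurd (subset_closure ((hP'm m w).1 h1).1) (((hP'm n w).1 h2).2 m h)
    · exact h
    · exact absurd (subset_closure ((hP'm n w).1 h2).1) (((hP'm m w).1 h1).2 n h)
  have hP'c : ∀ w ∈ Z, w ∈ frontier H → ∃ n, w ∈ P' n := by
    classical
    intro w hw hwH
    have hex : ∃ n, w ∈ P n := mem_iUnion.1 (hPcov ⟨hwH, hw⟩)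
    refine ⟨Nat.find hex, (hP'm _ _).2 ⟨Nat.find_spec hex, fun i hi => ?_⟩⟩
    exact hcl i w hw (Nat.find_min hex hi)
  set G : Set X := {w | ∃ z ∈ frontier H, ∃ n, w ∈ connectedComponentIn (P' n) z} with hG
  have hGo : IsOpen G := by
    rw [isOpen_iff_forall_mem_open]
    rintro w ⟨z, hz, n, hw⟩
    exact ⟨connectedComponentIn (P' n) z, fun a ha => ⟨z, hz, n, ha⟩,
      (hP'o n).connectedComponentIn, hw⟩
  have hpre : IsPreconnected (H ∪ G) := by
    refine isPreconnected_of_forall x ?_
    intro w hw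
    rcases hw with hw | ⟨z, hz, n, hw⟩
    · exact ⟨H, subset_union_left, hxH, hw, hHc⟩
    · refine ⟨H ∪ connectedComponentIn (P' n) z, ?_, Or.inl hxH, Or.inr hw, ?_⟩
      · exact union_subset_union_right _ fun a ha => ⟨z, hz, n, ha⟩
      · have hzP : z ∈ P' n := by
          by_contra h
          rw [connectedComponentIn_eq_empty h] at hw
          exact hw
        refine hHc.union' ?_ isPreconnected_connectedComponentIn
        rw [hHo.frontier_eq] at hz
        obtain ⟨a, ha1, ha2⟩ := mem_closure_iff.1 hz.1 _ (hP'o n).connectedComponentIn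
          (mem_connectedComponentIn hzP)
        exact ⟨a, ha2, ha1⟩
  have hfr : Disjoint (frontier (H ∪ G)) Z := by
    rw [Set.disjoint_left]
    intro w hw hwZ
    rw [(hHo.union hGo).frontier_eq] at hw
    obtain ⟨hw1, hw2⟩ := hw
    have hwH : w ∉ closure H := by
      intro h
      have hwf : w ∈ frontier H := by
        rw [hHo.frontier_eq]
        exact ⟨h, fun h' => hw2 (Or.inl h')⟩
      obtain ⟨n, hn⟩ := hP'c w hwZ hwf
      exact hw2 (Or.inr ⟨w, hwf, n, mem_connectedComponentIn hn⟩)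
    have hwG : w ∈ closure G := by
      rw [closure_union] at hw1
      exact hw1.resolve_left hwH
    have hpre' : IsPreconnected (H ∪ G ∪ {w}) := by
      refine hpre.subset_closure subset_union_left ?_
      rintro a (ha | ha)
      · exact subset_closure ha
      · rw [mem_singleton_iff.1 ha]
        exact hw1
    obtain ⟨T, hT1, hT2, hT3, hT4⟩ := hX _ hpre' w (Or.inr rfl) (closure H)ᶜ
      (isClosed_closure.isOpen_compl.mem_nhds hwH)
    obtain ⟨N, hN1, hN2, hN3⟩ := mem_nhdsWithin.1 hT4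
    obtain ⟨t, ht1, ht2⟩ := mem_closure_iff.1 hwG N hN1 hN2
    have htT : t ∈ T := hN3 ⟨ht1, Or.inl (Or.inr ht2)⟩
    obtain ⟨z, hz, n, htR⟩ := ht2
    set R := connectedComponentIn (P' n) z with hR
    have hRo : IsOpen R := (hP'o n).connectedComponentIn
    have hwR : w ∉ closure R := by
      intro h
      have : w ∈ frontier R := by
        rw [hRo.frontier_eq]
        exact ⟨h, fun h' => hw2 (Or.inr ⟨z, hz, n, h'⟩)⟩
      exact Set.disjoint_left.1 (hP'f n) (frontier_cc (hP'o n) z this) hwZ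
    have hcovT : T ⊆ R ∪ (closure R)ᶜ := by
      intro s hs
      by_contra hcon
      rw [mem_union, mem_compl_iff, not_or, not_not] at hcon
      obtain ⟨hs1, hs2⟩ := hcon
      rcases (hT1 hs).1 with (h | h) | h
      · exact (hT1 hs).2 (subset_closure h)
      · obtain ⟨z', hz', n', hs'⟩ := h
        have hRo' : IsOpen (connectedComponentIn (P' n') z') := (hP'o n').connectedComponentIn
        obtain ⟨r, hr1, hr2⟩ := mem_closure_iff.1 hs2 _ hRo' hs'
        have hnn : n' = n := hP'd n' n r (connectedComponentIn_subset _ _ hr1)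
          (connectedComponentIn_subset _ _ hr2)
        subst hnn
        have e1 := connectedComponentIn_eq hr1
        have e2 := connectedComponentIn_eq hr2
        apply hs1
        rw [hR, e2, ← e1]
        exact hs'
      · rw [mem_singleton_iff.1 h] at hs2
        exact hwR hs2
    obtain ⟨a, -, ha1, ha2⟩ := hT2 R (closure R)ᶜ hRo isClosed_closure.isOpen_compl hcovT
      ⟨t, htT, htR⟩ ⟨w, hT3, hwR⟩
    exact ha2 (subset_closure ha1)
  have hyin := hxQ.2 (H ∪ G) (hHo.union hGo) hfr (Or.inl hxH)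
  rcases hyin with h | ⟨z, -, n, h⟩
  · exact Set.disjoint_left.1 hO (hHO h) hyO
  · exact (hPS n).2.2 (((hP'm n y).1 (connectedComponentIn_subset _ _ h)).1)

theorem qc_preconnected [LocallyConnectedSpace X] [SecondCountableTopology X] (hX : HL X)
    {Z : Set X} {y : X} (hy : y ∈ Z) : IsPreconnected (QC Z y) := by
  have hyQ : y ∈ QC Z y := ⟨hy, fun P _ _ h => h⟩
  rw [isPreconnected_iff_subset_of_disjoint]
  intro u v hu hv hcov hdis
  rcases hcov hyQ with h | h
  · left
    refine qc_aux hX hv hu ?_ ?_ hyQ h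
    · rwa [union_comm]
    · rwa [inter_comm v u]
  · right
    exact qc_aux hX hu hv hcov hdis hyQ h

end Pool.Agent.Q266.HLC
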