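import Pool.Agent.Q266.HLC.Qc

/-!
The separation theorem: in a locally connected separable metric space all of whose connected subsets
are locally connected, connected open sets with disjoint closures are separated by a countable set.
-/

set_option autoImplicit false

namespace Pool.Agent.Q266.HLC

open Set Topology

section

variable {X : Type} [MetricSpace X]

theorem hl_of (h : ∀ s : Set X, IsConnected s → LocallyConnectedSpace s) : HL X := by
  intro s hs x hx N hN
  have := h s ⟨⟨x, hx⟩, hs⟩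
  have hN' : (Subtype.val ⁻¹' N : Set s) ∈ 𝓝 (⟨x, hx⟩ : s) :=
    continuous_subtype_val.continuousAt.preimage_mem_nhds hN
  obtain ⟨V, hV1, hV2, hV3⟩ := locallyConnectedSpace_iff_connected_subsets.1 this _ _ hN'
  refine ⟨Subtype.val '' V, ?_, ?_, ?_, ?_⟩
  · rintro _ ⟨a, ha, rfl⟩
    exact ⟨a.2, hV3 ha⟩
  · exact hV2.image _ continuous_subtype_val.continuousOn
  · exact ⟨⟨x, hx⟩, mem_of_mem_nhds hV1, rfl⟩
  · obtain ⟨O, hO1, hO2, hO3⟩ := mem_nhds_iff.1 hV1
    obtain ⟨O', hO', rfl⟩ := isOpen_induced_iff.1 hO2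
    exact mem_nhdsWithin.2 ⟨O', hO', hO3, fun a ha => ⟨⟨a, ha.2⟩, hO1 ha.1, rfl⟩⟩

theorem hl_subtype (hX : HL X) (M : Set X) : HL M := by
  intro s hs x hx N hN
  obtain ⟨N', hN', hNN⟩ := mem_nhds_subtype M x N |>.1 hN
  have hs' : IsPreconnected (Subtype.val '' s : Set X) :=
    hs.image _ continuous_subtype_val.continuousOn
  obtain ⟨T, hT1, hT2, hT3, hT4⟩ := hX _ hs' x ⟨x, hx, rfl⟩ N' hN'
  have himg : Subtype.val '' (Subtype.val ⁻¹' T : Set M) = T := by
    rw [Subtype.image_preimage_coe]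
    refine inter_eq_right.2 fun a ha => ?_
    obtain ⟨b, -, rfl⟩ := (hT1 ha).1
    exact b.2
  refine ⟨Subtype.val ⁻¹' T, ?_, ?_, hT3, ?_⟩
  · intro a ha
    refine ⟨?_, hNN (hT1 ha).2⟩
    obtain ⟨b, hb, hab⟩ := (hT1 ha).1
    rwa [← Subtype.ext hab]
  · rw [← IsInducing.subtypeVal.isPreconnected_image, himg]
    exact hT2
  · obtain ⟨O, hO1, hO2, hO3⟩ := mem_nhdsWithin.1 hT4
    exact mem_nhdsWithin.2 ⟨Subtype.val ⁻¹' O, hO1.preimage continuous_subtype_val, hO2,
      fun a ha => hO3 ⟨ha.1, ⟨a, ha.2, rfl⟩⟩⟩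

theorem lc_of_hl (hX : HL X) {M : Set X} (hM : IsPreconnected M) : LocallyConnectedSpace M := by
  rw [locallyConnectedSpace_iff_connected_subsets]
  intro x N hN
  have hu : IsPreconnected (univ : Set M) := by
    rw [← IsInducing.subtypeVal.isPreconnected_image, image_univ, Subtype.range_coe]
    exact hM
  obtain ⟨T, hT1, hT2, hT3, hT4⟩ := hl_subtype hX M univ hu x (mem_univ _) N hN
  rw [nhdsWithin_univ] at hT4
  exact ⟨T, hT4, hT2, fun a ha => (hT1 ha).2⟩

/-- saturated sets -/
def Sat (W D : Set X) : Prop :=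
  ∀ P : Set X, IsOpen P → (frontier P ∩ W).Countable → ∀ p ∈ P, ∀ q ∉ closure P,
    ∃ P' : Set X, IsOpen P' ∧ p ∈ P' ∧ q ∉ P' ∧ frontier P' ∩ W ⊆ D

theorem exists_sat [SecondCountableTopology X] (F : Set (Set X)) (hF : F.Countable) :
    ∃ D : Set X, D.Countable ∧ ∀ W ∈ F, Sat W D := by
  classical
  set B := TopologicalSpace.countableBasis X with hB
  have hBc : B.Countable := TopologicalSpace.countable_countableBasis X
  have hBb : TopologicalSpace.IsTopologicalBasis B := TopologicalSpace.isBasis_countableBasis X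
  let C : Set X × Set X × Set X → Prop := fun t => ∃ P : Set X, IsOpen P ∧ t.2.1 ⊆ P ∧
    Disjoint t.2.2 P ∧ (frontier P ∩ t.1).Countable
  let Q : Set X × Set X × Set X → Set X := fun t => if h : C t then Classical.choose h else ∅
  have hQ : ∀ t, C t → IsOpen (Q t) ∧ t.2.1 ⊆ Q t ∧ Disjoint t.2.2 (Q t) ∧
      (frontier (Q t) ∩ t.1).Countable := by
    intro t ht
    have : Q t = Classical.choose ht := by simp only [Q, dif_pos ht]
    rw [this]
    exact Classical.choose_spec ht
  refine ⟨⋃ t ∈ {t | t ∈ F ×ˢ B ×ˢ B ∧ C t}, frontier (Q t) ∩ t.1, ?_, ?_⟩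
  · refine Set.Countable.biUnion ?_ fun t ht => (hQ t ht.2).2.2.2
    exact (hF.prod (hBc.prod hBc)).mono fun t ht => ht.1
  · intro W hW P hP hc p hp q hq
    obtain ⟨B1, hB1, hpB, hBP⟩ := hBb.exists_subset_of_mem_open hp hP
    obtain ⟨B2, hB2, hqB, hBQ⟩ :=
      hBb.exists_subset_of_mem_open (show q ∈ (closure P)ᶜ from hq) isClosed_closure.isOpen_compl
    have hCt : C (W, B1, B2) := by
      refine ⟨P, hP, hBP, ?_, hc⟩
      rw [Set.disjoint_left]
      intro a ha1 ha2
      exact hBQ ha1 (subset_closure ha2)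
    obtain ⟨h1, h2, h3, h4⟩ := hQ _ hCt
    refine ⟨Q (W, B1, B2), h1, h2 hpB, fun h => Set.disjoint_left.1 h3 hqB h, ?_⟩
    intro a ha
    exact mem_biUnion (x := (W, B1, B2)) ⟨⟨hW, hB1, hB2⟩, hCt⟩ ha

/-- components of `W \ D` cannot be broken by countable sets -/
theorem unbreakable [LocallyConnectedSpace X] [SecondCountableTopology X] (hX : HL X)
    {W D D' : Set X} (hD : D.Countable) (hD' : D'.Countable) (hs : Sat W D)
    (p : X) : IsPreconnected (connectedComponentIn (W \ D) p \ D') := by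
  rcases (connectedComponentIn (W \ D) p \ D').eq_empty_or_nonempty with h0 | ⟨y, hyS, hyD⟩
  · rw [h0]; exact isPreconnected_empty
  set S := connectedComponentIn (W \ D) p with hS
  have hSW : S ⊆ W \ D := connectedComponentIn_subset _ _
  have hSc : IsPreconnected S := isPreconnected_connectedComponentIn
  have hyZ : y ∈ W \ (D ∪ D') := ⟨(hSW hyS).1, fun h => h.elim (hSW hyS).2 hyD⟩
  have hq : IsPreconnected (QC (W \ (D ∪ D')) y) := qc_preconnected hX hyZ
  have hyQ : y ∈ QC (W \ (D ∪ D')) y := ⟨hyZ, fun P _ _ h => h⟩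
  have heq : S \ D' = QC (W \ (D ∪ D')) y := by
    apply Subset.antisymm
    · rintro x ⟨hx1, hx2⟩
      refine ⟨⟨(hSW hx1).1, fun h => h.elim (hSW hx1).2 hx2⟩, ?_⟩
      intro P hP hf hxP
      by_contra hyP
      have hycl : y ∉ closure P := by
        intro h
        refine Set.disjoint_left.1 hf ?_ hyZ
        rw [hP.frontier_eq]
        exact ⟨h, hyP⟩
      have hc : (frontier P ∩ W).Countable := by
        refine (hD.union hD').mono ?_
        rintro a ⟨ha1, ha2⟩
        by_contra h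
        exact Set.disjoint_left.1 hf ha1 ⟨ha2, h⟩
      obtain ⟨P', h1, h2, h3, h4⟩ := hs P hP hc x hxP y hycl
      refine h3 (side hSc h1 ?_ ⟨x, hx1, h2⟩ hyS)
      rw [Set.disjoint_left]
      intro a ha1 ha2
      exact (hSW ha2).2 (h4 ⟨ha1, (hSW ha2).1⟩)
    · intro x hx
      refine ⟨?_, fun h => hx.1.2 (Or.inr h)⟩
      have hsub : QC (W \ (D ∪ D')) y ⊆ connectedComponentIn (W \ D) y := by
        refine hq.subset_connectedComponentIn hyQ ?_
        intro a ha
        exact ⟨ha.1.1, fun h => ha.1.2 (Or.inl h)⟩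
      have : S = connectedComponentIn (W \ D) y := connectedComponentIn_eq hyS
      rw [this]
      exact hsub hx
  rw [heq]
  exact hq

theorem qc_sep {U V Z : Set X} (hU : IsPreconnected U) (hV : IsPreconnected V)
    (hUZ : U ⊆ Z) (hVZ : V ⊆ Z) {v : X} (hv : v ∈ V)
    (hno : ¬ ∃ P : Set X, IsOpen P ∧ U ⊆ P ∧ Disjoint V P ∧ Disjoint (frontier P) Z) :
    U ∪ V ⊆ QC Z v := by
  intro x hx
  refine ⟨hx.elim (fun h => hUZ h) (fun h => hVZ h), ?_⟩
  intro P hP hf hxP
  by_contra hvP
  rcases hx with hx | hx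
  · refine hno ⟨P, hP, side hU hP (hf.mono_right hUZ) ⟨x, hx, hxP⟩, ?_, hf⟩
    rw [Set.disjoint_left]
    intro a ha1 ha2
    exact hvP (side hV hP (hf.mono_right hVZ) ⟨a, ha1, ha2⟩ hv)
  · exact hvP (side hV hP (hf.mono_right hVZ) ⟨x, hx, hxP⟩ hv)

end

/-- in a nontrivial connected space open sets have no isolated points -/
theorem exists_mem_ne {Y : Type} [MetricSpace Y] [ConnectedSpace Y] [Nontrivial Y] {S : Set Y}
    (hS : IsOpen S) {x : Y} (hx : x ∈ S) : ∃ y ∈ S, y ≠ x := by
  by_contra hcon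
  push Not at hcon
  have h : S = {x} := Subset.antisymm (fun y hy => hcon y hy) (by rintro _ rfl; exact hx)
  have hcl : IsClopen ({x} : Set Y) := ⟨isClosed_singleton, h ▸ hS⟩
  rcases isClopen_iff.1 hcl with h' | h'
  · exact (singleton_ne_empty x) h'
  · obtain ⟨y, hy⟩ := exists_ne x
    exact hy (by have : y ∈ ({x} : Set Y) := by rw [h']; exact mem_univ _
                 exact this)

theorem nls_of {Y : Type} [MetricSpace Y] [ConnectedSpace Y] [Nontrivial Y]
    (h : ∀ x : Y, ∀ O : Set Y, IsOpen O → x ∈ O → ∃ S : Set Y, IsOpen S ∧ x ∈ S ∧ S ⊆ O ∧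
      IsPreconnected (S \ {x})) : NLS Y := by
  intro O hO hOc x
  by_cases hx : x ∈ O
  swap
  · rw [sdiff_singleton_eq_self hx]; exact hOc
  obtain ⟨S, hS, hxS, hSO, hSc⟩ := h x O hO hx
  -- it suffices to treat two open sets of which the first meets `S \ {x}`
  have key : ∀ u v : Set Y, IsOpen u → IsOpen v → O \ {x} ⊆ u ∪ v → (O \ {x}) ∩ (u ∩ v) = ∅ →
      S \ {x} ⊆ u → O \ {x} ⊆ u := by
    intro u v hu hv hcov hdis hSu y hy
    by_contra hyu
    have hyv : y ∈ v := (hcov hy).resolve_left hyu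
    have hv' : IsOpen (v \ {x}) := hv.sdiff isClosed_singleton
    have hu' : IsOpen (u ∪ S) := hu.union hS
    obtain ⟨a, haO, ha1, ha2⟩ := hOc (u ∪ S) (v \ {x}) hu' hv' (by
      intro a ha
      by_cases hax : a = x
      · left; right; rw [hax]; exact hxS
      · rcases hcov ⟨ha, hax⟩ with h | h
        · left; left; exact h
        · right; exact ⟨h, hax⟩) ⟨x, hx, Or.inr hxS⟩ ⟨y, hy.1, hyv, hy.2⟩
    have hau : a ∈ u := by
      rcases ha1 with h | h
      · exact h
      · exact hSu ⟨h, ha2.2⟩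
    have : a ∈ (O \ {x}) ∩ (u ∩ v) := ⟨⟨haO, ha2.2⟩, hau, ha2.1⟩
    rw [hdis] at this
    exact this
  rw [isPreconnected_iff_subset_of_disjoint]
  intro u v hu hv hcov hdis
  have hSsub : S \ {x} ⊆ O \ {x} := sdiff_subset_sdiff_left hSO
  have hd : (S \ {x}) ∩ (u ∩ v) = ∅ := by
    rw [← subset_empty_iff, ← hdis]
    exact inter_subset_inter_left _ hSsub
  rcases isPreconnected_iff_subset_of_disjoint.1 hSc u v hu hv (hSsub.trans hcov) hd with h1 | h1
  · exact Or.inl (key u v hu hv hcov hdis h1)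
  · refine Or.inr (key v u hv hu (by rwa [union_comm]) (by rwa [inter_comm v u]) h1)

/-- **The separation theorem.** -/
theorem csep (hm : S_menger) (hst : S_strands) (X : Type) [MetricSpace X]
    [TopologicalSpace.SeparableSpace X] [LocallyConnectedSpace X] (hX : HL X) : CSep X := by
  have : SecondCountableTopology X := UniformSpace.secondCountable_of_separable X
  intro U V hU hUc hUn hV hVc hVn hUV
  by_contra hno
  set B := TopologicalSpace.countableBasis X with hB
  have hBc : B.Countable := TopologicalSpace.countable_countableBasis X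
  have hBb : TopologicalSpace.IsTopologicalBasis B := TopologicalSpace.isBasis_countableBasis X
  obtain ⟨D, hD, hsat⟩ := exists_sat (insert univ B) (hBc.insert _)
  obtain ⟨v, hv⟩ := hVn
  obtain ⟨u, hu⟩ := hUn
  set Z : Set X := Dᶜ ∪ (U ∪ V) with hZ
  have hKsub : U ∪ V ⊆ QC Z v := by
    refine qc_sep hUc hVc (fun a ha => Or.inr (Or.inl ha)) (fun a ha => Or.inr (Or.inr ha)) hv ?_
    rintro ⟨P, h1, h2, h3, h4⟩
    refine hno ⟨P, h1, h2, h3, hD.mono ?_⟩
    intro a ha
    by_contra haD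
    exact Set.disjoint_left.1 h4 ha (Or.inl haD)
  set K := QC Z v with hK
  have hKc : IsPreconnected K := qc_preconnected hX (Or.inr (Or.inr hv))
  obtain ⟨x, hxK, hxU, hxV⟩ : ∃ x ∈ K, x ∉ closure U ∧ x ∉ closure V := by
    by_contra hcon
    push Not at hcon
    obtain ⟨a, -, ha1, ha2⟩ := isPreconnected_closed_iff.1 hKc (closure U) (closure V)
      isClosed_closure isClosed_closure (by
        intro a ha
        by_cases h : a ∈ closure U
        · exact Or.inl h
        · exact Or.inr (hcon a ha h)) ⟨u, hKsub (Or.inl hu), subset_closure hu⟩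
      ⟨v, hKsub (Or.inr hv), subset_closure hv⟩
    exact Set.disjoint_left.1 hUV ha1 ha2
  obtain ⟨T, hT1, hT2, hT3, hT4⟩ := hX K hKc x hxK ((closure U)ᶜ ∩ (closure V)ᶜ)
    ((isClosed_closure.isOpen_compl.inter isClosed_closure.isOpen_compl).mem_nhds ⟨hxU, hxV⟩)
  have hTD : T ⊆ univ \ D := by
    intro t ht
    obtain ⟨h1, h2, h3⟩ := hT1 ht
    rcases h1.1 with h | h | h
    · exact ⟨mem_univ _, h⟩
    · exact absurd (subset_closure h) h2
    · exact absurd (subset_closure h) h3
  obtain ⟨x', hx'T, hx'⟩ : ∃ x' ∈ T, x' ≠ x := by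
    by_contra hcon
    push Not at hcon
    obtain ⟨N, hN1, hN2, hN3⟩ := mem_nhdsWithin.1 hT4
    have hux : u ≠ x := fun h => hxU (h ▸ subset_closure hu)
    obtain ⟨a, haK, ha1, ha2⟩ := hKc N {x}ᶜ hN1 isOpen_compl_singleton (by
      intro a _
      by_cases h : a = x
      · left; rw [h]; exact hN2
      · right; exact h) ⟨x, hxK, hN2⟩ ⟨u, hKsub (Or.inl hu), hux⟩
    exact ha2 (hcon a (hN3 ⟨ha1, haK⟩))
  set M := connectedComponentIn (univ \ D) x with hM
  have hMD : M ⊆ univ \ D := connectedComponentIn_subset _ _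
  have hMc : IsPreconnected M := isPreconnected_connectedComponentIn
  have hTM : T ⊆ M := hT2.subset_connectedComponentIn hT3 hTD
  have hxM : x ∈ M := hTM hT3
  have hlc : LocallyConnectedSpace M := lc_of_hl hX hMc
  have hconn : ConnectedSpace M := isConnected_iff_connectedSpace.1 ⟨⟨x, hxM⟩, hMc⟩
  have hnt : Nontrivial M := ⟨⟨x', hTM hx'T⟩, ⟨x, hxM⟩, fun h => hx' (congrArg Subtype.val h)⟩
  refine hst hm M (hl_subtype hX M) (nls_of ?_)
  intro y O hO hyO
  obtain ⟨N, hN, rfl⟩ := isOpen_induced_iff.1 hO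
  obtain ⟨A, hA, hyA, hAN⟩ := hBb.exists_subset_of_mem_open (show (y : X) ∈ N from hyO) hN
  have hAo : IsOpen A := hBb.isOpen hA
  have hyD : (y : X) ∈ A \ D := ⟨hyA, (hMD y.2).2⟩
  set S := connectedComponentIn (A \ D) (y : X) with hS
  have hSD : S ⊆ A \ D := connectedComponentIn_subset _ _
  have hyS : (y : X) ∈ S := mem_connectedComponentIn hyD
  have hSM : S ⊆ M := by
    have : M = connectedComponentIn (univ \ D) (y : X) := connectedComponentIn_eq y.2
    rw [this]
    exact isPreconnected_connectedComponentIn.subset_connectedComponentIn hyS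
      fun a ha => ⟨mem_univ _, (hSD ha).2⟩
  have himg : Subtype.val '' (Subtype.val ⁻¹' S : Set M) = S := by
    rw [Subtype.image_preimage_coe]
    exact inter_eq_right.2 hSM
  have hAM : IsOpen (Subtype.val ⁻¹' A : Set M) := hAo.preimage continuous_subtype_val
  have hSeq : (Subtype.val ⁻¹' S : Set M) = connectedComponentIn (Subtype.val ⁻¹' A) y := by
    apply Subset.antisymm
    · refine IsPreconnected.subset_connectedComponentIn ?_ hyS fun a ha => (hSD ha).1
      rw [← IsInducing.subtypeVal.isPreconnected_image, himg]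
      exact isPreconnected_connectedComponentIn
    · intro a ha
      have hpc : IsPreconnected (Subtype.val '' (connectedComponentIn (Subtype.val ⁻¹' A : Set M) y)) :=
        isPreconnected_connectedComponentIn.image _ continuous_subtype_val.continuousOn
      refine hpc.subset_connectedComponentIn ⟨y, mem_connectedComponentIn hyA, rfl⟩ ?_ ⟨a, ha, rfl⟩
      rintro _ ⟨b, hb, rfl⟩
      exact ⟨connectedComponentIn_subset (Subtype.val ⁻¹' A : Set M) y hb, (hMD b.2).2⟩
  refine ⟨Subtype.val ⁻¹' S, ?_, hyS, fun a ha => hAN (hSD ha).1, ?_⟩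
  · rw [hSeq]
    exact hAM.connectedComponentIn
  · have hdiff : Subtype.val '' ((Subtype.val ⁻¹' S : Set M) \ {y}) = S \ {(y : X)} := by
      rw [image_sdiff Subtype.val_injective, himg, image_singleton]
    rw [← IsInducing.subtypeVal.isPreconnected_image, hdiff]
    exact unbreakable hX hD (countable_singleton _) (hsat A (Or.inr hA)) _

end Pool.Agent.Q266.HLC
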