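import Mathlib

/-!
Statements of the lemma jobs of the project MP_a1dcbe_gt (hereditarily locally connected spaces are at
most one-dimensional).
-/

set_option autoImplicit false

namespace Pool.Agent.Q266.HLC

open Set Topology

/-- No local separating points. -/
def NLS (Y : Type) [TopologicalSpace Y] : Prop :=
  ∀ O : Set Y, IsOpen O → IsPreconnected O → ∀ x : Y, IsPreconnected (O \ {x})

/-- Every connected subset is locally connected, in set form: every point of a preconnected set `s` has
arbitrarily small preconnected neighbourhoods in `s`. -/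
def HL (Y : Type) [TopologicalSpace Y] : Prop :=
  ∀ s : Set Y, IsPreconnected s → ∀ x ∈ s, ∀ N ∈ 𝓝 x,
    ∃ T : Set Y, T ⊆ s ∩ N ∧ IsPreconnected T ∧ x ∈ T ∧ T ∈ 𝓝[s] x

/-- JOB MENGER: the 2-Menger theorem in a locally connected metric space without local separating
points. -/
def S_menger : Prop :=
  ∀ (Y : Type) [MetricSpace Y] [LocallyConnectedSpace Y], NLS Y →
    ∀ (O U : Set Y) (q b : Y), IsOpen O → IsPreconnected O → IsOpen U → (O ∩ U).Nonempty →
      q ∈ O → b ∈ O → q ≠ b →
      ∃ Tq Tb : Set Y, IsOpen Tq ∧ IsPreconnected Tq ∧ IsOpen Tb ∧ IsPreconnected Tb ∧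
        Tq ⊆ O ∧ Tb ⊆ O ∧ Disjoint Tq Tb ∧ q ∈ Tq ∧ b ∈ Tb ∧ (Tq ∩ U).Nonempty ∧ (Tb ∩ U).Nonempty

/-- JOB STRANDS: a connected locally connected metric space with property HL and without local
separating points has at most one point. -/
def S_strands : Prop :=
  S_menger → ∀ (Y : Type) [MetricSpace Y] [ConnectedSpace Y] [LocallyConnectedSpace Y] [Nontrivial Y],
    HL Y → NLS Y → False

/-- The conclusion of the separation theorem: two connected open sets with disjoint closures are
separated by a countable set. -/
def CSep (X : Type) [TopologicalSpace X] : Prop :=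
  ∀ U V : Set X, IsOpen U → IsPreconnected U → U.Nonempty → IsOpen V → IsPreconnected V → V.Nonempty →
    Disjoint (closure U) (closure V) →
    ∃ P : Set X, IsOpen P ∧ U ⊆ P ∧ Disjoint V P ∧ (frontier P).Countable

/-- JOB ASSEMBLY: a connected, locally connected separable metric space in which any two connected open
sets with disjoint closures are separated by a countable set has small inductive dimension at most
one (form of the starting theorem S12751). -/
def S_assembly : Prop :=
  ∀ (X : Type) [MetricSpace X] [TopologicalSpace.SeparableSpace X] [ConnectedSpace X]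
    [LocallyConnectedSpace X], CSep X →
    ∀ x : X, ∀ V : Set X, IsOpen V → x ∈ V →
      ∃ U : Set X, IsOpen U ∧ x ∈ U ∧ U ⊆ V ∧
        ∀ y : ↥(frontier U), ∀ O : Set ↥(frontier U), IsOpen O → y ∈ O →
          ∃ W : Set ↥(frontier U), IsClopen W ∧ y ∈ W ∧ W ⊆ O

end Pool.Agent.Q266.HLC
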