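import Pool.Agent.Q266.HLC.Sep

/-!
Infinitely many disjoint connected open sets accumulating at a point.
-/

set_option autoImplicit false

namespace Pool.Agent.Q266.HLC

open Set Topology

theorem strands : S_strands := by
  classical
  intro hm Y _ _ _ _ hHL hN
  obtain ⟨q, u, hqu⟩ := exists_pair_ne Y
  have hd : 0 < dist q u := dist_pos.2 hqu
  set U : Set Y := connectedComponentIn (Metric.ball u (dist q u / 2)) u with hU
  have hUo : IsOpen U := Metric.isOpen_ball.connectedComponentIn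
  have hUc : IsPreconnected U := isPreconnected_connectedComponentIn
  have huU : u ∈ U := mem_connectedComponentIn (Metric.mem_ball_self (by linarith))
  have hqU : q ∉ closure U := by
    intro h
    have h1 : q ∈ Metric.closedBall u (dist q u / 2) :=
      Metric.closure_ball_subset_closedBall (closure_mono (connectedComponentIn_subset _ _) h)
    rw [Metric.mem_closedBall] at h1
    linarith
  -- one step
  have step : ∀ (n : ℕ) (O : {O : Set Y // IsOpen O ∧ IsPreconnected O ∧ q ∈ O ∧ (O ∩ U).Nonempty}),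
      ∃ (O' : {O : Set Y // IsOpen O ∧ IsPreconnected O ∧ q ∈ O ∧ (O ∩ U).Nonempty}) (K : Set Y)
        (b : Y), IsOpen K ∧ IsPreconnected K ∧ O'.1 ⊆ O.1 ∧ K ⊆ O.1 ∧ Disjoint O'.1 K ∧
        (K ∩ U).Nonempty ∧ b ∈ K ∧ dist b q < 1 / ((n : ℝ) + 1) := by
    rintro n ⟨O, hO1, hO2, hO3, hO4⟩
    have hpos : (0 : ℝ) < 1 / ((n : ℝ) + 1) := by positivity
    obtain ⟨b, ⟨hb1, hb2⟩, hb3⟩ := exists_mem_ne (hO1.inter (Metric.isOpen_ball (x := q)
      (ε := 1 / ((n : ℝ) + 1)))) ⟨hO3, Metric.mem_ball_self hpos⟩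
    obtain ⟨Tq, Tb, h1, h2, h3, h4, h5, h6, h7, h8, h9, h10, h11⟩ :=
      hm Y hN O U q b hO1 hO2 hUo hO4 hO3 hb1 (Ne.symm hb3)
    exact ⟨⟨Tq, h1, h2, h8, h10⟩, Tb, b, h3, h4, h5, h6, h7, h11, h9, hb2⟩
  choose nxt Kf bf hK1 hK2 hK3 hK4 hK5 hK6 hK7 hK8 using step
  let O : ℕ → {O : Set Y // IsOpen O ∧ IsPreconnected O ∧ q ∈ O ∧ (O ∩ U).Nonempty} := fun n =>
    Nat.rec ⟨univ, isOpen_univ, isPreconnected_univ, mem_univ _, ⟨u, mem_univ _, huU⟩⟩
      (fun n o => nxt n o) n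
  have hOs : ∀ n, O (n + 1) = nxt n (O n) := fun n => rfl
  set K : ℕ → Set Y := fun n => Kf n (O n) with hK
  set b : ℕ → Y := fun n => bf n (O n) with hb
  have hOmono : ∀ m n, m ≤ n → (O n).1 ⊆ (O m).1 := by
    intro m n h
    induction n, h using Nat.le_induction with
    | base => exact Subset.rfl
    | succ k _ ih => exact (hK3 k (O k)).trans ih
  have hKdis : ∀ m n, m < n → Disjoint (K n) (K m) := by
    intro m n h
    refine Disjoint.mono_left ((hK4 n (O n)).trans (hOmono (m + 1) n h)) ?_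
    exact hK5 m (O m)
  have hqK : ∀ n, q ∉ closure (K n) := by
    intro n h
    obtain ⟨a, ha1, ha2⟩ := mem_closure_iff.1 h _ (O (n + 1)).2.1 (O (n + 1)).2.2.2.1
    exact Set.disjoint_left.1 (hK5 n (O n)) ha1 ha2
  set G : Set Y := ⋃ n, K n with hG
  have hpre : IsPreconnected (U ∪ G) := by
    refine isPreconnected_of_forall u ?_
    rintro y (hy | hy)
    · exact ⟨U, subset_union_left, huU, hy, hUc⟩
    · obtain ⟨n, hn⟩ := mem_iUnion.1 hy
      refine ⟨U ∪ K n, union_subset_union_right _ (subset_iUnion K n), Or.inl huU, Or.inr hn, ?_⟩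
      obtain ⟨c, hc1, hc2⟩ := hK6 n (O n)
      exact hUc.union c hc2 hc1 (hK2 n (O n))
  have hqG : q ∈ closure (U ∪ G) := by
    rw [Metric.mem_closure_iff]
    intro ε hε
    obtain ⟨n, hn⟩ := exists_nat_one_div_lt hε
    refine ⟨b n, Or.inr (mem_iUnion.2 ⟨n, hK7 n (O n)⟩), ?_⟩
    rw [dist_comm]
    exact (hK8 n (O n)).trans hn
  have hpre' : IsPreconnected (U ∪ G ∪ {q}) := by
    refine hpre.subset_closure subset_union_left ?_
    rintro a (ha | ha)
    · exact subset_closure ha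
    · rw [mem_singleton_iff.1 ha]; exact hqG
  obtain ⟨T, hT1, hT2, hT3, hT4⟩ := hHL _ hpre' q (Or.inr rfl) (closure U)ᶜ
    (isClosed_closure.isOpen_compl.mem_nhds hqU)
  obtain ⟨N, hN1, hN2, hN3⟩ := mem_nhdsWithin.1 hT4
  obtain ⟨ε, hε, hball⟩ := Metric.isOpen_iff.1 hN1 q hN2
  obtain ⟨n, hn⟩ := exists_nat_one_div_lt hε
  have hbT : b n ∈ T := by
    refine hN3 ⟨hball ((hK8 n (O n)).trans hn), Or.inl (Or.inr (mem_iUnion.2 ⟨n, hK7 n (O n)⟩))⟩
  obtain ⟨a, -, ha1, ha2⟩ := hT2 (K n) (closure (K n))ᶜ (hK1 n (O n))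
    isClosed_closure.isOpen_compl (by
      intro s hs
      rcases (hT1 hs).1 with (h | h) | h
      · exact absurd (subset_closure h) (hT1 hs).2
      · obtain ⟨m, hm'⟩ := mem_iUnion.1 h
        by_cases hmn : m = n
        · left; rw [← hmn]; exact hm'
        · right
          intro hs'
          obtain ⟨c, hc1, hc2⟩ := mem_closure_iff.1 hs' _ (hK1 m (O m)) hm'
          rcases lt_or_gt_of_ne hmn with h' | h'
          · exact Set.disjoint_left.1 (hKdis m n h') hc2 hc1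
          · exact Set.disjoint_left.1 (hKdis n m h') hc1 hc2
      · right
        rw [mem_singleton_iff.1 h]
        exact hqK n) ⟨b n, hbT, hK7 n (O n)⟩ ⟨q, hT3, hqK n⟩
  exact ha2 (subset_closure ha1)

end Pool.Agent.Q266.HLC
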